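import Mathlib
import Pool.Agent.W208.TL.Stm

set_option autoImplicit false

namespace Pool.Agent.W690.TL

open Finset Filter
open Pool.Agent.W208.TL

lemma nit_eq (t : ℝ) (n : ℕ) : nit t n = Complex.exp (Complex.I * ((t * Real.log n : ℝ) : ℂ)) := rfl

lemma norm_nit (t : ℝ) (n : ℕ) : ‖nit t n‖ = 1 := by
  rw [nit_eq, mul_comm, Complex.norm_exp_ofReal_mul_I]

lemma nit_one (t : ℝ) : nit t 1 = 1 := by
  rw [nit_eq]; simp

lemma nit_zero (t : ℝ) : nit t 0 = 1 := by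
  rw [nit_eq]; simp

lemma nit_mul (t : ℝ) {m n : ℕ} (h : Nat.Coprime m n) : nit t (m * n) = nit t m * nit t n := by
  rcases Nat.eq_zero_or_pos m with hm | hm
  · subst hm
    have : n = 1 := by simpa using h
    subst this
    simp [nit_one]
  rcases Nat.eq_zero_or_pos n with hn | hn
  · subst hn
    have : m = 1 := by simpa using h
    subst this
    simp [nit_one]
  rw [nit_eq, nit_eq, nit_eq, ← Complex.exp_add, ← mul_add, ← Complex.ofReal_add, ← mul_add,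
    Nat.cast_mul, Real.log_mul (by positivity) (by positivity)]

lemma nit_sum {k : ℕ} (t : Fin k → ℝ) (n : ℕ) : nit (∑ j, t j) n = ∏ j, nit (t j) n := by
  simp only [nit_eq]
  rw [← Complex.exp_sum, ← Finset.mul_sum, Finset.sum_mul, Complex.ofReal_sum]

lemma nit_sub_le (t : ℝ) (a b : ℕ) : ‖nit t a - nit t b‖ ≤ |t| * |Real.log a - Real.log b| := by
  have h1 : nit t a - nit t b = nit t b *
      (Complex.exp (Complex.I * ((t * (Real.log a - Real.log b) : ℝ) : ℂ)) - 1) := by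
    rw [mul_sub, mul_one, nit_eq, nit_eq, ← Complex.exp_add, ← mul_add, ← Complex.ofReal_add]
    congr 4
    ring_nf
  rw [h1, norm_mul, norm_nit, one_mul]
  calc _ ≤ ‖(t * (Real.log a - Real.log b) : ℝ)‖ := Real.norm_exp_I_mul_ofReal_sub_one_le
    _ = _ := by rw [Real.norm_eq_abs, abs_mul]

lemma log_diff_aux {n a b H : ℕ} (hn : 1 ≤ n) (hab : a ≤ b) (hb : b ≤ H) :
    |Real.log ((n + b : ℕ) : ℝ) - Real.log ((n + a : ℕ) : ℝ)| ≤ H / n := by
  have hn' : (0 : ℝ) < n := by exact_mod_cast hn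
  have ha0 : (0 : ℝ) < ((n + a : ℕ) : ℝ) := by positivity
  have hb0 : (0 : ℝ) < ((n + b : ℕ) : ℝ) := by positivity
  have hle : ((n + a : ℕ) : ℝ) ≤ ((n + b : ℕ) : ℝ) := by exact_mod_cast Nat.add_le_add_left hab n
  rw [abs_of_nonneg (sub_nonneg.2 (Real.log_le_log ha0 hle)), ← Real.log_div hb0.ne' ha0.ne']
  calc Real.log (((n + b : ℕ) : ℝ) / ((n + a : ℕ) : ℝ))
      ≤ ((n + b : ℕ) : ℝ) / ((n + a : ℕ) : ℝ) - 1 := Real.log_le_sub_one_of_pos (by positivity)
    _ = (((n + b : ℕ) : ℝ) - ((n + a : ℕ) : ℝ)) / ((n + a : ℕ) : ℝ) := by field_simp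
    _ ≤ H / n := by
        have h1 : (((n + b : ℕ) : ℝ) - ((n + a : ℕ) : ℝ)) ≤ H := by
          push_cast
          have : (b : ℝ) ≤ H := by exact_mod_cast hb
          have : (0 : ℝ) ≤ a := by positivity
          linarith
        have h2 : (n : ℝ) ≤ ((n + a : ℕ) : ℝ) := by push_cast; linarith [Nat.cast_nonneg (α := ℝ) a]
        gcongr

lemma log_diff {n a b H : ℕ} (hn : 1 ≤ n) (ha : a ≤ H) (hb : b ≤ H) :
    |Real.log ((n + b : ℕ) : ℝ) - Real.log ((n + a : ℕ) : ℝ)| ≤ H / n := by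
  rcases le_total a b with h | h
  · exact log_diff_aux hn h hb
  · rw [abs_sub_comm]; exact log_diff_aux hn h ha

lemma prod_sub_prod {ι : Type*} (s : Finset ι) (x y : ι → ℂ) (hx : ∀ i ∈ s, ‖x i‖ ≤ 1)
    (hy : ∀ i ∈ s, ‖y i‖ ≤ 1) : ‖∏ i ∈ s, x i - ∏ i ∈ s, y i‖ ≤ ∑ i ∈ s, ‖x i - y i‖ := by
  classical
  induction s using Finset.induction_on with
  | empty => simp
  | insert i s hi ih =>
    rw [Finset.prod_insert hi, Finset.prod_insert hi, Finset.sum_insert hi]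
    have e : x i * ∏ j ∈ s, x j - y i * ∏ j ∈ s, y j =
      (x i - y i) * ∏ j ∈ s, x j + y i * (∏ j ∈ s, x j - ∏ j ∈ s, y j) := by ring
    rw [e]
    have h1 : ‖∏ j ∈ s, x j‖ ≤ 1 := by
      rw [norm_prod]
      exact Finset.prod_le_one (fun _ _ => norm_nonneg _)
        (fun j hj => hx j (Finset.mem_insert_of_mem hj))
    have h2 := ih (fun j hj => hx j (Finset.mem_insert_of_mem hj))
      (fun j hj => hy j (Finset.mem_insert_of_mem hj))
    have h3 := hy i (Finset.mem_insert_self _ _)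
    calc _ ≤ ‖(x i - y i) * ∏ j ∈ s, x j‖ + ‖y i * (∏ j ∈ s, x j - ∏ j ∈ s, y j)‖ := norm_add_le _ _
      _ = ‖x i - y i‖ * ‖∏ j ∈ s, x j‖ + ‖y i‖ * ‖∏ j ∈ s, x j - ∏ j ∈ s, y j‖ := by
        rw [norm_mul, norm_mul]
      _ ≤ ‖x i - y i‖ * 1 + 1 * ‖∏ j ∈ s, x j - ∏ j ∈ s, y j‖ := by gcongr
      _ ≤ _ := by rw [mul_one, one_mul]; linarith

lemma mul1_kf {g : ℕ → ℂ} (hg : Mul1 g) : KF g :=
  ⟨hg.1, g, g, hg.1, hg.1, fun p n hp hn => hg.2.2 p n ((Nat.Prime.coprime_iff_not_dvd hp).2 hn)⟩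

lemma mul1_nit {f : ℕ → ℂ} (hf : Mul1 f) (T : ℝ) : Mul1 (fun n => f n * nit T n) := by
  refine ⟨fun n => ?_, ?_, fun m n hmn => ?_⟩
  · rw [norm_mul, norm_nit, mul_one]; exact hf.1 n
  · simp only [hf.2.1, nit_one, mul_one]
  · simp only [hf.2.2 m n hmn, nit_mul T hmn]; ring

lemma mu_nonneg (w y d : ℕ) : 0 ≤ mu w y d := by
  unfold mu
  split_ifs
  · refine div_nonneg (Finset.prod_nonneg fun l hl => ?_) (Nat.cast_nonneg _)
    have hl2 : 1 < l := (Finset.mem_filter.1 hl).2.one_lt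
    have : (1 : ℝ) / l ≤ 1 := by
      rw [div_le_one (by positivity)]; exact_mod_cast hl2.le
    linarith
  · exact le_rfl

lemma norm_cav_le {k : ℕ} (w y Z : ℕ) (Φ : (Fin k → ℕ) → ℂ) (hΦ : ∀ d, ‖Φ d‖ ≤ 1)
    (A : Fin k → ℕ) : ‖cav w y Z Φ A‖ ≤ 1 := by
  unfold cav
  have hs : (∑ d ∈ Icc 1 Z, (mu w y d : ℂ)) = ((∑ d ∈ Icc 1 Z, mu w y d : ℝ) : ℂ) := by push_cast; rfl
  have hs0 : 0 ≤ ∑ d ∈ Icc 1 Z, mu w y d := Finset.sum_nonneg fun d _ => mu_nonneg w y d
  rw [hs, norm_div, norm_pow, Complex.norm_of_nonneg hs0]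
  refine div_le_one_of_le₀ ?_ (pow_nonneg hs0 _)
  calc _ ≤ ∑ d ∈ box k Z, ‖Φ (fun j => A j * d j) * ∏ j, (mu w y (d j) : ℂ)‖ := norm_sum_le _ _
    _ ≤ ∑ d ∈ box k Z, ∏ j, mu w y (d j) := by
      refine Finset.sum_le_sum fun d _ => ?_
      rw [norm_mul, norm_prod]
      calc _ ≤ 1 * ∏ j, ‖(mu w y (d j) : ℂ)‖ := by
            gcongr
            exact hΦ _
        _ = _ := by
          rw [one_mul]
          refine Finset.prod_congr rfl fun j _ => ?_
          rw [Complex.norm_of_nonneg (mu_nonneg _ _ _)]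
    _ = (∑ d ∈ Icc 1 Z, mu w y d) ^ k := by
      have := Finset.prod_univ_sum (fun _ : Fin k => Icc 1 Z) (fun _ d => mu w y d)
      rw [Finset.prod_const, Finset.card_univ, Fintype.card_fin] at this
      rw [this]; rfl


lemma class_sum (g D : ℕ → ℂ) (Q X : ℕ) (hQ : 1 ≤ Q) (hD : ∀ n, D (n + Q) = D n)
    (hD1 : ∀ n, ‖D n‖ ≤ 1) (M : ℝ)
    (hM : ∀ r, ‖∑ n ∈ (Ioc 0 X).filter (fun n => n ≡ r [MOD Q]), g n‖ ≤ M) :
    ‖∑ n ∈ Ioc 0 X, g n * D n‖ ≤ Q * M := by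
  have hper : Function.Periodic D Q := hD
  have hmaps : ∀ n ∈ Ioc 0 X, n % Q ∈ range Q := fun n _ =>
    Finset.mem_range.2 (Nat.mod_lt _ hQ)
  rw [← Finset.sum_fiberwise_of_maps_to hmaps]
  calc _ ≤ ∑ r ∈ range Q, ‖∑ n ∈ (Ioc 0 X).filter (fun n => n % Q = r), g n * D n‖ :=
        norm_sum_le _ _
    _ ≤ ∑ r ∈ range Q, M := by
        refine Finset.sum_le_sum fun r hr => ?_
        have hr' := Finset.mem_range.1 hr
        have e : ∑ n ∈ (Ioc 0 X).filter (fun n => n % Q = r), g n * D n =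
            (∑ n ∈ (Ioc 0 X).filter (fun n => n ≡ r [MOD Q]), g n) * D r := by
          rw [Finset.sum_mul]
          have hf : (Ioc 0 X).filter (fun n => n % Q = r) =
              (Ioc 0 X).filter (fun n => n ≡ r [MOD Q]) := by
            refine Finset.filter_congr fun n _ => ?_
            rw [Nat.ModEq, Nat.mod_eq_of_lt hr']
          rw [hf]
          refine Finset.sum_congr rfl fun n hn => ?_
          have hn' : n % Q = r % Q := (Finset.mem_filter.1 hn).2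
          have h1 := hper.map_mod_nat n
          have h2 := hper.map_mod_nat r
          rw [← h1, hn', h2]
        rw [e, norm_mul]
        calc _ ≤ M * 1 := by
              gcongr
              · exact le_trans (norm_nonneg _) (hM r)
              · exact hM r
              · exact hD1 r
          _ = M := mul_one _
    _ = Q * M := by rw [Finset.sum_const, card_range, nsmul_eq_mul]

lemma shift_sum (G : ℕ → ℂ) (hG : ∀ n, ‖G n‖ ≤ 1) (X h0 : ℕ) :
    ‖∑ n ∈ Ioc 0 X, G (n + h0) - ∑ n ∈ Ioc 0 X, G n‖ ≤ 2 * h0 := by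
  induction h0 with
  | zero => simp
  | succ h ih =>
    have e : ∀ Y : ℕ, ∑ n ∈ Ioc 0 Y, G (n + (h + 1)) - ∑ n ∈ Ioc 0 Y, G (n + h) =
        G (Y + h + 1) - G (h + 1) := by
      intro Y
      induction Y with
      | zero => simp
      | succ Y ihY =>
        rw [Finset.sum_Ioc_succ_top (by omega), Finset.sum_Ioc_succ_top (by omega)]
        have e1 : Y + 1 + (h + 1) = Y + 1 + h + 1 := by ring
        have e2 : Y + 1 + h = Y + h + 1 := by ring
        rw [e1, e2]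
        linear_combination ihY
    have e3 : ∑ n ∈ Ioc 0 X, G (n + (h + 1)) - ∑ n ∈ Ioc 0 X, G n =
        (∑ n ∈ Ioc 0 X, G (n + (h + 1)) - ∑ n ∈ Ioc 0 X, G (n + h)) +
        (∑ n ∈ Ioc 0 X, G (n + h) - ∑ n ∈ Ioc 0 X, G n) := by ring
    rw [e3, e X]
    have h1 : ‖G (X + h + 1) - G (h + 1)‖ ≤ 2 := by
      calc _ ≤ ‖G (X + h + 1)‖ + ‖G (h + 1)‖ := norm_sub_le _ _
        _ ≤ 1 + 1 := add_le_add (hG _) (hG _)
        _ = 2 := by norm_num
    calc _ ≤ ‖G (X + h + 1) - G (h + 1)‖ + ‖∑ n ∈ Ioc 0 X, G (n + h) - ∑ n ∈ Ioc 0 X, G n‖ :=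
          norm_add_le _ _
      _ ≤ 2 + 2 * h := add_le_add h1 ih
      _ = _ := by push_cast; ring

lemma sum_shift_le (F : ℕ → ℝ) (hF : ∀ n, 0 ≤ F n) {X h H : ℕ} (hh : h ≤ H) :
    ∑ n ∈ Ioc 0 X, F (n + h) ≤ ∑ m ∈ Ioc 0 (X + H), F m := by
  have e : ∑ n ∈ Ioc 0 X, F (n + h) = ∑ m ∈ (Ioc 0 X).map (addRightEmbedding h), F m := by
    rw [Finset.sum_map]; rfl
  rw [e]
  refine Finset.sum_le_sum_of_subset_of_nonneg ?_ fun _ _ _ => hF _
  intro m hm
  obtain ⟨n, hn, rfl⟩ := Finset.mem_map.1 hm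
  have := Finset.mem_Ioc.1 hn
  simp only [addRightEmbedding_apply, Finset.mem_Ioc]
  omega

lemma sum_inv_le {X : ℕ} : ∑ n ∈ Ioc 0 X, (1 : ℝ) / n ≤ 1 + Real.log X := by
  have h := harmonic_le_one_add_log X
  have e : ((harmonic X : ℚ) : ℝ) = ∑ n ∈ Ioc 0 X, (1 : ℝ) / n := by
    rw [harmonic_eq_sum_Icc]
    push_cast
    have : Icc 1 X = Ioc 0 X := by ext; simp [Finset.mem_Icc, Finset.mem_Ioc]; omega
    rw [this]
    simp [one_div]
  rw [← e]; exact h

lemma one_sub_re_nonneg {u : ℕ → ℂ} (hu : Mul1 u) (p : ℕ) : 0 ≤ 1 - (u p).re := by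
  have := (Complex.re_le_norm (u p)).trans (hu.1 p)
  linarith

lemma one_sub_re_le {u : ℕ → ℂ} (hu : Mul1 u) (p : ℕ) : 1 - (u p).re ≤ 2 := by
  have := (Complex.abs_re_le_norm (u p)).trans (hu.1 p)
  have := (abs_le.1 this).1
  linarith

lemma primes_step {u : ℕ → ℂ} (hu : Mul1 u) {X y H A K : ℕ} (hX : 1 ≤ X) (hy : X < (y + 1) ^ K)
    (hKA : K ≤ A) {c : ℝ}
    (hc : ∑ p ∈ (Icc 1 X).filter (fun p => p.Prime ∧ X < p ^ A), (1 - (u p).re) / p ≤ c) :
    ∑ p ∈ PP y (X + H), (1 - (u p).re) / p ≤ c + 2 * H / X := by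
  classical
  set S := (Icc 1 X).filter (fun p => p.Prime ∧ X < p ^ A) with hS
  have hX' : (0 : ℝ) < X := by exact_mod_cast hX
  have hsub : PP y (X + H) ⊆ S ∪ Ioc X (X + H) := by
    intro p hp
    obtain ⟨hp1, hp2⟩ := Finset.mem_filter.1 hp
    have hp3 := Finset.mem_Ioc.1 hp1
    by_cases hpX : p ≤ X
    · refine Finset.mem_union_left _ (Finset.mem_filter.2 ⟨Finset.mem_Icc.2 ⟨hp2.one_lt.le, hpX⟩,
        hp2, ?_⟩)
      calc X < (y + 1) ^ K := hy
        _ ≤ p ^ K := Nat.pow_le_pow_left (by omega) _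
        _ ≤ p ^ A := Nat.pow_le_pow_right hp2.pos hKA
    · exact Finset.mem_union_right _ (Finset.mem_Ioc.2 ⟨by omega, hp3.2⟩)
  have hdisj : Disjoint S (Ioc X (X + H)) := by
    rw [Finset.disjoint_left]
    intro p hp hp'
    have h1 := (Finset.mem_Icc.1 (Finset.mem_filter.1 hp).1).2
    have h2 := (Finset.mem_Ioc.1 hp').1
    omega
  have hnn : ∀ p : ℕ, 0 ≤ (1 - (u p).re) / p := fun p =>
    div_nonneg (one_sub_re_nonneg hu p) (Nat.cast_nonneg _)
  calc _ ≤ ∑ p ∈ S ∪ Ioc X (X + H), (1 - (u p).re) / p :=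
        Finset.sum_le_sum_of_subset_of_nonneg hsub fun p _ _ => hnn p
    _ = ∑ p ∈ S, (1 - (u p).re) / p + ∑ p ∈ Ioc X (X + H), (1 - (u p).re) / p :=
        Finset.sum_union hdisj
    _ ≤ c + ∑ p ∈ Ioc X (X + H), (2 : ℝ) / X := by
        gcongr with p hp
        · exact one_sub_re_le hu p
        · exact (Finset.mem_Ioc.1 hp).1.le
    _ = c + 2 * H / X := by
        rw [Finset.sum_const, Nat.card_Ioc, nsmul_eq_mul]
        congr 1
        rw [show X + H - X = H by omega]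
        ring

lemma exists_root {K Y0 : ℕ} (hK : 1 ≤ K) {X : ℕ} (hX : Y0 ^ K ≤ X) :
    ∃ y : ℕ, Y0 ≤ y ∧ y ^ K ≤ X ∧ X < (y + 1) ^ K := by
  classical
  have hex : ∃ n : ℕ, X < (n + 1) ^ K := by
    refine ⟨X, ?_⟩
    calc X < X + 1 := Nat.lt_succ_self _
      _ = (X + 1) ^ 1 := (pow_one _).symm
      _ ≤ (X + 1) ^ K := Nat.pow_le_pow_right (by omega) hK
  set y := Nat.find hex with hy
  have h1 : X < (y + 1) ^ K := Nat.find_spec hex
  have h2 : y ^ K ≤ X := by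
    rcases Nat.eq_zero_or_pos y with h | h
    · rw [h, Nat.zero_pow (by omega)]; exact Nat.zero_le _
    · have := Nat.find_min hex (m := y - 1) (by omega)
      rw [not_lt, Nat.sub_add_cancel h] at this
      exact this
  refine ⟨y, ?_, h2, h1⟩
  by_contra hlt
  push Not at hlt
  have : (y + 1) ^ K ≤ Y0 ^ K := Nat.pow_le_pow_left (by omega) _
  omega


lemma gcd_per (a : ℤ) (n Q : ℕ) : Nat.gcd (lf 1 a (n + Q)) Q = Nat.gcd (lf 1 a n) Q := by
  have e : ∀ m : ℕ, Nat.gcd (lf 1 a m) Q = Int.gcd ((m : ℤ) + a) (Q : ℤ) := by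
    intro m
    unfold lf
    rw [Int.gcd_def, Int.natAbs_natCast, Nat.cast_one, one_mul]
  rw [e, e]
  push_cast
  rw [show (n : ℤ) + Q + a = (n + a) + Q by ring, Int.gcd_add_self_left]

lemma eventually_cond (ε c1 c2 : ℝ) (hε : 0 < ε) (N : ℕ) : ∃ X0 : ℕ, ∀ X : ℕ, X0 ≤ X →
    N ≤ X ∧ c1 ≤ X ∧ c2 * (1 + Real.log X) ≤ ε * X := by
  have h1 : ∀ᶠ X : ℕ in atTop, N ≤ X := eventually_ge_atTop N
  have h2 : ∀ᶠ X : ℕ in atTop, c1 ≤ (X : ℝ) := tendsto_natCast_atTop_atTop.eventually_ge_atTop c1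
  have hlo := (Real.isLittleO_log_id_atTop.bound (show 0 < ε / 2 / (|c2| + 1) by positivity))
  have h3 : ∀ᶠ X : ℕ in atTop, ‖Real.log X‖ ≤ ε / 2 / (|c2| + 1) * ‖((X : ℝ))‖ :=
    tendsto_natCast_atTop_atTop.eventually hlo
  have h4 : ∀ᶠ X : ℕ in atTop, |c2| * 2 / ε ≤ (X : ℝ) :=
    tendsto_natCast_atTop_atTop.eventually_ge_atTop _
  have hall := h1.and (h2.and (h3.and h4))
  obtain ⟨X0, hX0⟩ := eventually_atTop.1 hall
  refine ⟨X0, fun X hX => ?_⟩
  obtain ⟨k1, k2, k3, k4⟩ := hX0 X hX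
  refine ⟨k1, k2, ?_⟩
  have hX' : (0 : ℝ) ≤ X := Nat.cast_nonneg _
  rw [Real.norm_eq_abs, Real.norm_eq_abs, abs_of_nonneg hX'] at k3
  have a0 : 0 ≤ |c2| := abs_nonneg _
  have b1 : |c2| ≤ ε / 2 * X := by
    rw [div_le_iff₀ hε] at k4; linarith
  have b2 : |c2| * |Real.log X| ≤ ε / 2 * X := by
    calc |c2| * |Real.log X| ≤ |c2| * (ε / 2 / (|c2| + 1) * X) := by gcongr
      _ = (|c2| / (|c2| + 1)) * (ε / 2 * X) := by field_simp
      _ ≤ 1 * (ε / 2 * X) := by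
        gcongr
        rw [div_le_one (by positivity)]; linarith
      _ = _ := one_mul _
  calc c2 * (1 + Real.log X) ≤ |c2 * (1 + Real.log X)| := le_abs_self _
    _ = |c2| * |1 + Real.log X| := abs_mul _ _
    _ ≤ |c2| * (1 + |Real.log X|) := by
        gcongr
        calc |1 + Real.log X| ≤ |(1 : ℝ)| + |Real.log X| := abs_add_le _ _
          _ = _ := by rw [abs_one]
    _ = |c2| + |c2| * |Real.log X| := by ring
    _ ≤ ε / 2 * X + ε / 2 * X := add_le_add b1 b2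
    _ = _ := by ring


lemma case_zero (h0 : ℕ) (ε : ℝ) (hε : 0 < ε) : ∃ A X0 : ℕ, 1 ≤ A ∧ ∀ X : ℕ, X0 ≤ X →
    ∀ f : ℕ → ℂ, Mul1 f → SmallMeans f A X → ‖∑ n ∈ Ioc 0 X, f (n + h0)‖ ≤ ε * X := by
  obtain ⟨A, hA⟩ := exists_nat_ge (max 1 (2 / ε))
  have hA1 : (1 : ℝ) ≤ A := (le_max_left _ _).trans hA
  have hA2 : 2 / ε ≤ A := (le_max_right _ _).trans hA
  obtain ⟨X0, hX0⟩ := eventually_cond ε (4 * h0 / ε) 0 hε 1
  refine ⟨A, X0, by exact_mod_cast hA1, fun X hX f hf hsm => ?_⟩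
  obtain ⟨h1, h2, -⟩ := hX0 X hX
  have hX' : (0 : ℝ) ≤ X := Nat.cast_nonneg _
  have hApos : (0 : ℝ) < A := by linarith
  have k1 := hsm 1 0 le_rfl (by exact_mod_cast hA1) 0 (by simp)
  have k2 : ∑ n ∈ (Ioc 0 X).filter (fun n => n ≡ 0 [MOD 1]), f n * nit 0 n = ∑ n ∈ Ioc 0 X, f n := by
    rw [Finset.filter_true_of_mem (fun n _ => Nat.modEq_one)]
    refine Finset.sum_congr rfl fun n _ => ?_
    simp [nit_eq]
  rw [k2] at k1
  have k3 := shift_sum f hf.1 X h0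
  have k4 : (X : ℝ) / A ≤ ε / 2 * X := by
    rw [div_le_iff₀ hApos]
    have : 1 ≤ ε / 2 * A := by
      rw [div_le_iff₀ hε] at hA2; linarith
    nlinarith
  have k5 : (2 : ℝ) * h0 ≤ ε / 2 * X := by
    rw [div_le_iff₀ hε] at h2; linarith
  calc _ = ‖(∑ n ∈ Ioc 0 X, f (n + h0) - ∑ n ∈ Ioc 0 X, f n) + ∑ n ∈ Ioc 0 X, f n‖ := by
        rw [sub_add_cancel]
    _ ≤ _ := norm_add_le _ _
    _ ≤ 2 * h0 + X / A := add_le_add k3 k1
    _ ≤ ε / 2 * X + ε / 2 * X := add_le_add k5 k4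
    _ = _ := by ring

theorem uell : ST → NEAR → UELL := by
  classical
  intro hST hNEAR k h0 h hinj hne B ε hε
  rcases Nat.eq_zero_or_pos k with hk | hk
  · subst hk
    obtain ⟨A, X0, hA, hX0⟩ := case_zero h0 ε hε
    refine ⟨A, X0, hA, fun X hX f hf hsm q χ t u _ _ _ _ => ?_⟩
    simpa using hX0 X hX f hf hsm
  -- main case
  have hk' : (0 : ℝ) < k := by exact_mod_cast hk
  set a : Fin k → ℤ := fun j => (h j : ℤ) - h0 with ha
  have hainj : Function.Injective a := by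
    intro i j hij
    simp only [ha] at hij
    exact hinj (by omega)
  have hane : ∀ j, a j ≠ 0 := by
    intro j hj
    simp only [ha] at hj
    exact hne j (by omega)
  set ε1 : ℝ := min (ε / 10) (1 / 2) with hε1
  have hε1pos : 0 < ε1 := lt_min (by positivity) (by norm_num)
  have hε1a : ε1 ≤ ε / 10 := min_le_left _ _
  obtain ⟨Q, w, K1, K, y0, hQ0, hQ1, hK1, hK, hST'⟩ :=
    hST k a hk hainj hane B.factorial (Nat.factorial_pos B) ε1 hε1pos
  obtain ⟨δ, hδ, y1, hN⟩ := hNEAR (2 * K + 1) (ε / (10 * k)) (by omega) (by positivity)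
  -- the bound on the shifts
  set H : ℕ := h0 + ∑ j, h j with hH
  have hH0 : h0 ≤ H := Nat.le_add_right _ _
  have hHj : ∀ j, h j ≤ H := fun j =>
    (Finset.single_le_sum (f := h) (fun _ _ => Nat.zero_le _) (Finset.mem_univ j)).trans
      (Nat.le_add_left _ _)
  obtain ⟨A, hA⟩ := exists_nat_ge
    (max 1 (max (Q : ℝ) (max ((k * B : ℕ) : ℝ) (max (K : ℝ) (max (10 * Q / ε) (2 / δ))))))
  have hA1 : (1 : ℝ) ≤ A := (le_max_left _ _).trans hA
  have hA2 := (le_max_right _ _).trans hA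
  have hAQ : (Q : ℝ) ≤ A := (le_max_left _ _).trans hA2
  have hA3 := (le_max_right _ _).trans hA2
  have hAkB : ((k * B : ℕ) : ℝ) ≤ A := (le_max_left _ _).trans hA3
  have hA4 := (le_max_right _ _).trans hA3
  have hAK : (K : ℝ) ≤ A := (le_max_left _ _).trans hA4
  have hA5 := (le_max_right _ _).trans hA4
  have hAQε : 10 * Q / ε ≤ A := (le_max_left _ _).trans hA5
  have hAδ : 2 / δ ≤ A := (le_max_right _ _).trans hA5
  have hApos : (0 : ℝ) < A := by linarith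
  obtain ⟨X0, hX0⟩ := eventually_cond (ε / 10) (max (4 * H / δ) (2 * h0 / (ε / 10)))
    (k * B * H) (by positivity) (max (max (max 1 H) ((max (max y0 y1) (max 2 H)) ^ K)) 1)
  refine ⟨A, X0, by exact_mod_cast hA1, fun X hX f hf hsm q χ t u hq ht hu hup => ?_⟩
  obtain ⟨c1, c2, c3⟩ := hX0 X hX
  have c1' : max (max 1 H) ((max (max y0 y1) (max 2 H)) ^ K) ≤ X := (le_max_left _ _).trans c1
  have hX1 : 1 ≤ X := ((le_max_left _ _).trans (le_max_left _ _)).trans c1'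
  have hXH : H ≤ X := ((le_max_right _ _).trans (le_max_left _ _)).trans c1'
  have hXY : (max (max y0 y1) (max 2 H)) ^ K ≤ X := (le_max_right _ _).trans c1'
  have hXr : (1 : ℝ) ≤ X := by exact_mod_cast hX1
  have hXHr : (H : ℝ) ≤ X := by exact_mod_cast hXH
  have hXpos : (0 : ℝ) < X := by linarith
  have hXδ : 4 * H / δ ≤ X := (le_max_left _ _).trans c2
  have hXh0 : 2 * h0 / (ε / 10) ≤ X := (le_max_right _ _).trans c2
  obtain ⟨y, hy0, hyX, hyX'⟩ := exists_root hK hXY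
  have hyy0 : y0 ≤ y := ((le_max_left _ _).trans (le_max_left _ _)).trans hy0
  have hyy1 : y1 ≤ y := ((le_max_right _ _).trans (le_max_left _ _)).trans hy0
  have hy2 : 2 ≤ y := ((le_max_left _ _).trans (le_max_right _ _)).trans hy0
  have hyH : H ≤ y := ((le_max_right _ _).trans (le_max_right _ _)).trans hy0
  -- X + H ≤ y ^ (2 K + 1)
  have hXK : X ≤ y ^ (2 * K) := by
    calc X ≤ (y + 1) ^ K := hyX'.le
      _ ≤ (y ^ 2) ^ K := Nat.pow_le_pow_left (by nlinarith) _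
      _ = y ^ (2 * K) := by rw [← pow_mul]
  have hXHK : X + H ≤ y ^ (2 * K + 1) := by
    have e1 : H ≤ y ^ (2 * K) := hyH.trans (Nat.le_self_pow (by omega) y)
    calc X + H ≤ y ^ (2 * K) + y ^ (2 * K) := add_le_add hXK e1
      _ = y ^ (2 * K) * 2 := by ring
      _ ≤ y ^ (2 * K) * y := Nat.mul_le_mul_left _ hy2
      _ = y ^ (2 * K + 1) := by rw [pow_succ]
  have hyleX : y ≤ X := (Nat.le_self_pow (by omega) y).trans hyX
  -- NEAR
  have near : ∀ j, ∑ n ∈ Ioc 0 X, ‖u j (n + h j) - u j (sm 0 y (n + h j))‖ ≤ ε / (10 * k) * (2 * X) := by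
    intro j
    have hAK' : K ≤ A := by exact_mod_cast hAK
    have hp := primes_step (hu j) (H := H) hX1 hyX' hAK' (hup j)
    have hp' : ∑ p ∈ PP y (X + H), (1 - (u j p).re) / p ≤ δ := by
      refine hp.trans ?_
      have e1 : (1 : ℝ) / A ≤ δ / 2 := by
        rw [div_le_iff₀ hApos]
        rw [div_le_iff₀ hδ] at hAδ; linarith
      have e2 : (2 : ℝ) * H / X ≤ δ / 2 := by
        rw [div_le_iff₀ hXpos]
        rw [div_le_iff₀ hδ] at hXδ; linarith
      linarith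
    have hn := hN y (X + H) hyy1 (by omega) hXHK (u j) (hu j) hp'
    have hs := sum_shift_le (fun n => ‖u j n - u j (sm 0 y n)‖) (fun _ => norm_nonneg _) (X := X)
      (hHj j)
    refine hs.trans (hn.trans ?_)
    push_cast
    gcongr
    linarith
  -- the objects
  set T : ℝ := ∑ j, t j with hT
  have hTA : |T| ≤ A := by
    calc |T| ≤ ∑ j, |t j| := Finset.abs_sum_le_sum_abs _ _
      _ ≤ ∑ _j : Fin k, (B : ℝ) := Finset.sum_le_sum fun j _ => ht j
      _ = ((k * B : ℕ) : ℝ) := by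
        rw [Finset.sum_const, Finset.card_univ, Fintype.card_fin, nsmul_eq_mul]; push_cast; ring
      _ ≤ A := hAkB
  set g : ℕ → ℂ := fun n => f n * nit T n with hg
  have hgM : Mul1 g := mul1_nit hf T
  set ρ : ℕ → ℂ := fun n => ∏ j, χ j ((n : ZMod (q j)) + ((a j : ℤ) : ZMod (q j))) with hρ
  have hρ1 : ∀ n, ‖ρ n‖ ≤ 1 := by
    intro n
    simp only [hρ, norm_prod]
    exact Finset.prod_le_one (fun _ _ => norm_nonneg _) fun j _ => DirichletCharacter.norm_le_one _ _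
  have hρper0 : ∀ N : ℕ, B.factorial ∣ N → ∀ n, ρ (n + N) = ρ n := by
    intro N hN n
    simp only [hρ]
    refine Finset.prod_congr rfl fun j _ => ?_
    have : ((N : ℕ) : ZMod (q j)) = 0 := by
      rw [ZMod.natCast_eq_zero_iff]
      exact (Nat.dvd_factorial (hq j).1 (hq j).2).trans hN
    rw [Nat.cast_add, this, add_zero]
  set Φ : (Fin k → ℕ) → ℂ := fun d => ∏ j, u j (d j) with hΦ
  have hΦ1 : ∀ d, ‖Φ d‖ ≤ 1 := by
    intro d
    simp only [hΦ, norm_prod]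
    exact Finset.prod_le_one (fun _ _ => norm_nonneg _) fun j _ => (hu j).1 _
  obtain ⟨-, -, hST3⟩ := hST' y X hyy0 hyX
  have hST4 := hST3 Φ hΦ1 g (mul1_kf hgM) ρ hρ1 (hρper0 _ dvd_rfl)
  set C : ℕ → ℂ := fun n => cav w y (y ^ K1) Φ (fun j => Nat.gcd (lf 1 (a j) n) Q) with hC
  have hC1 : ∀ n, ‖C n‖ ≤ 1 := fun n => norm_cav_le _ _ _ _ hΦ1 _
  have hCper : ∀ n, C (n + Q) = C n := by
    intro n
    simp only [hC, gcd_per]
  set G : ℕ → ℂ := fun n => g n * (ρ n * Φ (fun j => sm 0 y (lf 1 (a j) n))) with hG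
  have hG1 : ∀ n, ‖G n‖ ≤ 1 := by
    intro n
    simp only [hG, norm_mul]
    exact mul_le_one₀ (hgM.1 n) (by positivity) (mul_le_one₀ (hρ1 n) (norm_nonneg _) (hΦ1 _))
  -- step 4: the sum over residue classes
  have s4 : ‖∑ n ∈ Ioc 0 X, g n * (ρ n * C n)‖ ≤ ε / 10 * X := by
    have h1 := class_sum g (fun n => ρ n * C n) Q X hQ1
      (fun n => by simp only [hρper0 Q hQ0 n, hCper n])
      (fun n => by rw [norm_mul]; exact mul_le_one₀ (hρ1 n) (norm_nonneg _) (hC1 n)) (X / A)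
      (fun r => hsm Q r hQ1 (by exact_mod_cast hAQ) T hTA)
    refine h1.trans ?_
    rw [mul_div_assoc', div_le_iff₀ hApos]
    rw [div_le_iff₀ hε] at hAQε
    nlinarith
  -- step 3: ST
  have s3 : ‖∑ n ∈ Ioc 0 X, G n - ∑ n ∈ Ioc 0 X, g n * (ρ n * C n)‖ ≤ ε / 10 * X := by
    rw [← Finset.sum_sub_distrib]
    have e : ∑ n ∈ Ioc 0 X, (G n - g n * (ρ n * C n)) =
        ∑ n ∈ Ioc 0 X, g n * (ρ n * (Φ (fun j => sm 0 y (lf 1 (a j) n)) -
          cav w y (y ^ K1) Φ (fun j => Nat.gcd (lf 1 (a j) n) Q))) := by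
      refine Finset.sum_congr rfl fun n _ => ?_
      simp only [hG, hC]; ring
    rw [e]
    exact hST4.trans (by gcongr)
  -- step 2: shift
  have s2 : ‖∑ n ∈ Ioc 0 X, G (n + h0) - ∑ n ∈ Ioc 0 X, G n‖ ≤ ε / 10 * X := by
    refine (shift_sum G hG1 X h0).trans ?_
    rw [div_le_iff₀ (by positivity)] at hXh0
    linarith
  -- step 1: replace
  have hval : ∀ n : ℕ, ∀ j, lf 1 (a j) (n + h0) = n + h j := by
    intro n j
    unfold lf
    have : (((1 : ℕ) : ℤ) * ((n + h0 : ℕ) : ℤ) + a j) = ((n + h j : ℕ) : ℤ) := by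
      simp only [ha]; push_cast; ring
    rw [this, Int.natAbs_natCast]
  have hGval : ∀ n : ℕ, G (n + h0) = f (n + h0) * ∏ j, (χ j ((n + h j : ℕ) : ZMod (q j)) *
      nit (t j) (n + h0) * u j (sm 0 y (n + h j))) := by
    intro n
    simp only [hG, hg, hρ, hΦ, hT, hval, nit_sum, Finset.prod_mul_distrib]
    have : ∀ j, (((n + h0 : ℕ) : ZMod (q j)) + ((a j : ℤ) : ZMod (q j))) =
        ((n + h j : ℕ) : ZMod (q j)) := by
      intro j
      simp only [ha]; push_cast; ring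
    simp only [this]
    ring
  have s1 : ‖∑ n ∈ Ioc 0 X, f (n + h0) * ∏ j, (χ j ((n + h j : ℕ) : ZMod (q j)) *
      nit (t j) (n + h j) * u j (n + h j)) - ∑ n ∈ Ioc 0 X, G (n + h0)‖ ≤
      ε / 10 * X + ε / 5 * X := by
    rw [← Finset.sum_sub_distrib]
    have hterm : ∀ n ∈ Ioc 0 X, ‖f (n + h0) * ∏ j, (χ j ((n + h j : ℕ) : ZMod (q j)) *
        nit (t j) (n + h j) * u j (n + h j)) - G (n + h0)‖ ≤
        ∑ j, (B * (H / n) + ‖u j (n + h j) - u j (sm 0 y (n + h j))‖) := by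
      intro n hn
      have hn1 : 1 ≤ n := (Finset.mem_Ioc.1 hn).1
      rw [hGval n, ← mul_sub, norm_mul]
      have p1 : ∀ j, ‖χ j ((n + h j : ℕ) : ZMod (q j)) * nit (t j) (n + h j) * u j (n + h j)‖ ≤ 1 := by
        intro j
        rw [norm_mul, norm_mul, norm_nit, mul_one]
        exact mul_le_one₀ (DirichletCharacter.norm_le_one _ _) (norm_nonneg _) ((hu j).1 _)
      have p2 : ∀ j, ‖χ j ((n + h j : ℕ) : ZMod (q j)) * nit (t j) (n + h0) *
          u j (sm 0 y (n + h j))‖ ≤ 1 := by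
        intro j
        rw [norm_mul, norm_mul, norm_nit, mul_one]
        exact mul_le_one₀ (DirichletCharacter.norm_le_one _ _) (norm_nonneg _) ((hu j).1 _)
      have p3 := prod_sub_prod (Finset.univ : Finset (Fin k)) _ _ (fun j _ => p1 j) (fun j _ => p2 j)
      calc _ ≤ 1 * ‖_‖ := mul_le_mul_of_nonneg_right (hf.1 _) (norm_nonneg _)
        _ ≤ ∑ j, ‖χ j ((n + h j : ℕ) : ZMod (q j)) * nit (t j) (n + h j) * u j (n + h j) -
            χ j ((n + h j : ℕ) : ZMod (q j)) * nit (t j) (n + h0) * u j (sm 0 y (n + h j))‖ := by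
          rw [one_mul]; exact p3
        _ ≤ _ := by
          refine Finset.sum_le_sum fun j _ => ?_
          have e : χ j ((n + h j : ℕ) : ZMod (q j)) * nit (t j) (n + h j) * u j (n + h j) -
              χ j ((n + h j : ℕ) : ZMod (q j)) * nit (t j) (n + h0) * u j (sm 0 y (n + h j)) =
              χ j ((n + h j : ℕ) : ZMod (q j)) * ((nit (t j) (n + h j) - nit (t j) (n + h0)) *
                u j (n + h j) + nit (t j) (n + h0) * (u j (n + h j) - u j (sm 0 y (n + h j)))) := by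
            ring
          rw [e, norm_mul]
          have q1 : ‖nit (t j) (n + h j) - nit (t j) (n + h0)‖ ≤ B * (H / n) := by
            refine (nit_sub_le _ _ _).trans ?_
            exact mul_le_mul (ht j) (log_diff hn1 hH0 (hHj j)) (abs_nonneg _) (Nat.cast_nonneg _)
          calc _ ≤ 1 * ‖_‖ :=
                mul_le_mul_of_nonneg_right (DirichletCharacter.norm_le_one _ _) (norm_nonneg _)
            _ ≤ ‖(nit (t j) (n + h j) - nit (t j) (n + h0)) * u j (n + h j)‖ +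
                ‖nit (t j) (n + h0) * (u j (n + h j) - u j (sm 0 y (n + h j)))‖ := by
              rw [one_mul]; exact norm_add_le _ _
            _ ≤ _ := by
              rw [norm_mul, norm_mul, norm_nit, one_mul]
              refine add_le_add ?_ le_rfl
              exact (mul_le_mul q1 ((hu j).1 _) (norm_nonneg _) (by positivity)).trans
                (mul_one _).le
    refine (norm_sum_le _ _).trans ((Finset.sum_le_sum hterm).trans ?_)
    simp only [Finset.sum_add_distrib]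
    refine add_le_add ?_ ?_
    · have e : ∑ n ∈ Ioc 0 X, ∑ _j : Fin k, (B : ℝ) * (H / n) =
          (k * B * H) * ∑ n ∈ Ioc 0 X, (1 : ℝ) / n := by
        rw [Finset.mul_sum]
        refine Finset.sum_congr rfl fun n _ => ?_
        rw [Finset.sum_const, Finset.card_univ, Fintype.card_fin, nsmul_eq_mul]
        ring
      rw [e]
      refine le_trans ?_ c3
      gcongr
      exact sum_inv_le
    · rw [Finset.sum_comm]
      calc _ ≤ ∑ _j : Fin k, ε / (10 * k) * (2 * X) := Finset.sum_le_sum fun j _ => near j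
        _ = _ := by
          rw [Finset.sum_const, Finset.card_univ, Fintype.card_fin, nsmul_eq_mul]
          field_simp
          ring
  -- assemble
  set S := ∑ n ∈ Ioc 0 X, f (n + h0) * ∏ j, (χ j ((n + h j : ℕ) : ZMod (q j)) *
      nit (t j) (n + h j) * u j (n + h j)) with hS
  have e : S = (S - ∑ n ∈ Ioc 0 X, G (n + h0)) +
      ((∑ n ∈ Ioc 0 X, G (n + h0) - ∑ n ∈ Ioc 0 X, G n) +
      ((∑ n ∈ Ioc 0 X, G n - ∑ n ∈ Ioc 0 X, g n * (ρ n * C n)) +
        ∑ n ∈ Ioc 0 X, g n * (ρ n * C n))) := by ring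
  rw [e]
  have hεX : 0 ≤ ε * X := by positivity
  calc _ ≤ _ := norm_add_le _ _
    _ ≤ (ε / 10 * X + ε / 5 * X) + (ε / 10 * X + (ε / 10 * X + ε / 10 * X)) := by
      refine add_le_add s1 ((norm_add_le _ _).trans (add_le_add s2 ((norm_add_le _ _).trans
        (add_le_add s3 s4))))
    _ = 3 / 5 * (ε * X) := by ring
    _ ≤ ε * X := by linarith

end Pool.Agent.W690.TL
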